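import Pool.Agent.helper93.FR.Spec

/-!
# Row N1 of MP_29f1cd_al: the flat representation of a fusion ring
-/

namespace Pool.Agent.helper93.FR

open Matrix BigOperators

/-! ### Star intertwiners -/

theorem N1_adj {κ m n : Type*} [Fintype m] [Fintype n] {y : κ → Matrix m m ℂ}
    {z : κ → Matrix n n ℂ} {h : Matrix n m ℂ} (H : SInt y z h) : SInt z y hᴴ := by
  intro j
  obtain ⟨h1, h2⟩ := H j
  constructor
  · have h3 := congrArg conjTranspose h2
    rw [conjTranspose_mul, conjTranspose_mul, conjTranspose_conjTranspose,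
      conjTranspose_conjTranspose] at h3
    exact h3.symm
  · have h3 := congrArg conjTranspose h1
    rw [conjTranspose_mul, conjTranspose_mul] at h3
    exact h3.symm

theorem N1_cmp {κ l m n : Type*} [Fintype l] [Fintype m] [Fintype n] {x : κ → Matrix l l ℂ}
    {y : κ → Matrix m m ℂ} {z : κ → Matrix n n ℂ} {h : Matrix m l ℂ} {h' : Matrix n m ℂ}
    (H : SInt x y h) (H' : SInt y z h') : SInt x z (h' * h) := by
  intro j
  obtain ⟨a1, a2⟩ := H j
  obtain ⟨b1, b2⟩ := H' j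
  constructor
  · rw [Matrix.mul_assoc, a1, ← Matrix.mul_assoc, b1, Matrix.mul_assoc]
  · rw [Matrix.mul_assoc, a2, ← Matrix.mul_assoc, b2, Matrix.mul_assoc]

theorem N1_zero {κ m n : Type*} [Fintype m] [Fintype n] {y : κ → Matrix m m ℂ}
    {z : κ → Matrix n n ℂ} : SInt y z (0 : Matrix n m ℂ) := by
  intro j
  simp

/-- A nonzero star intertwiner of irreducible tuples gives a unitary one. -/
theorem N1_unit (hS : Sch_stmt) {κ : Type} {m n : ℕ} {y : κ → Matrix (Fin m) (Fin m) ℂ}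
    {z : κ → Matrix (Fin n) (Fin n) ℂ} (hy : Irr y) (hz : Irr z)
    {h : Matrix (Fin n) (Fin m) ℂ} (hh : h ≠ 0) (H : SInt y z h) :
    ∃ V : Matrix (Fin n) (Fin m) ℂ, Vᴴ * V = 1 ∧ V * Vᴴ = 1 ∧ SInt y z V := by
  obtain ⟨⟨c, hc, h1, h2⟩, -⟩ := hS κ (Fin m) (Fin n) y z h hy hz H hh
  have ht : ((((Real.sqrt c)⁻¹ : ℝ) : ℂ) * (((Real.sqrt c)⁻¹ : ℝ) : ℂ)) * (c : ℂ) = 1 := by
    have h3 : (Real.sqrt c)⁻¹ * (Real.sqrt c)⁻¹ * c = 1 := by
      have h4 : Real.sqrt c ≠ 0 := (Real.sqrt_pos.2 hc).ne'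
      field_simp
      exact (Real.sq_sqrt hc.le).symm
    exact_mod_cast h3
  refine ⟨((((Real.sqrt c)⁻¹ : ℝ) : ℂ)) • h, ?_, ?_, ?_⟩
  · rw [conjTranspose_smul, Matrix.smul_mul, Matrix.mul_smul, h1, smul_smul, smul_smul]
    rw [show star (((Real.sqrt c)⁻¹ : ℝ) : ℂ) = (((Real.sqrt c)⁻¹ : ℝ) : ℂ) from
      Complex.conj_ofReal _, ht, one_smul]
  · rw [conjTranspose_smul, Matrix.smul_mul, Matrix.mul_smul, h2, smul_smul, smul_smul]
    rw [show star (((Real.sqrt c)⁻¹ : ℝ) : ℂ) = (((Real.sqrt c)⁻¹ : ℝ) : ℂ) from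
      Complex.conj_ofReal _, ht, one_smul]
  · intro j
    obtain ⟨a1, a2⟩ := H j
    rw [Matrix.smul_mul, Matrix.mul_smul, Matrix.smul_mul, Matrix.mul_smul, a1, a2]
    exact ⟨rfl, rfl⟩

theorem N1_dim {m n : ℕ} {V : Matrix (Fin n) (Fin m) ℂ} (h1 : Vᴴ * V = 1) (h2 : V * Vᴴ = 1) :
    m = n := by
  have h3 := Matrix.trace_mul_comm Vᴴ V
  rw [h1, h2, Matrix.trace_one, Matrix.trace_one, Fintype.card_fin, Fintype.card_fin] at h3
  exact_mod_cast h3

/-- Equivalence of the irreducible components. -/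
def N1_set (hS : Sch_stmt) {κ : Type} {g : ℕ} (d : Fin g → ℕ)
    (z : ∀ k, κ → Matrix (Fin (d k)) (Fin (d k)) ℂ) (hz : ∀ k, Irr (z k)) : Setoid (Fin g) where
  r k l := ∃ h : Matrix (Fin (d l)) (Fin (d k)) ℂ, h ≠ 0 ∧ SInt (z k) (z l) h
  iseqv := by
    refine ⟨fun k => ⟨1, ?_, ?_⟩, ?_, ?_⟩
    · have := (hz k).1
      exact one_ne_zero
    · intro j
      simp
    · rintro k l ⟨h, h0, hi⟩
      exact ⟨hᴴ, fun h1 => h0 (by rw [← conjTranspose_conjTranspose h, h1, conjTranspose_zero]),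
        N1_adj hi⟩
    · rintro k l m ⟨h, h0, hi⟩ ⟨h', h0', hi'⟩
      refine ⟨h' * h, ?_, N1_cmp hi hi'⟩
      intro h1
      obtain ⟨⟨c, hc, -, h2⟩, -⟩ := hS κ _ _ _ _ h (hz k) (hz l) hi h0
      have h3 : h' * (h * hᴴ) = 0 := by rw [← Matrix.mul_assoc, h1, Matrix.zero_mul]
      rw [h2, Matrix.mul_smul, Matrix.mul_one] at h3
      rcases smul_eq_zero.1 h3 with h4 | h4
      · exact hc.ne' (by exact_mod_cast h4)
      · exact h0' h4

/-- Isotypic decomposition of a tuple on `ℂ ^ r`. -/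
theorem N1_iso (hS : Sch_stmt) (hD : Dec_stmt) (r : ℕ)
    (y : Fin r → Matrix (Fin r) (Fin r) ℂ) :
    ∃ (g : ℕ) (R : Finset (Fin g)) (δ : Fin g → ℕ)
      (ζ : ∀ ρ, Fin r → Matrix (Fin (δ ρ)) (Fin (δ ρ)) ℂ)
      (I : ∀ ρ : Fin g, Fin g → Matrix (Fin r) (Fin (δ ρ)) ℂ) (c : Fin g → Fin g),
      g ≤ r ∧ (∀ k, c k ∈ R) ∧ (∀ ρ, Irr (ζ ρ)) ∧ (∀ ρ k, SInt (ζ ρ) y (I ρ k)) ∧
      (∀ ρ ∈ R, ∀ k, c k ≠ ρ → I ρ k = 0) ∧ (∀ ρ ∈ R, (I ρ ρ)ᴴ * I ρ ρ = 1) ∧
      (∑ ρ ∈ R, ∑ k, I ρ k * (I ρ k)ᴴ = 1) ∧ (∑ k, δ (c k) = r) ∧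
      (∀ ρ ∈ R, ∀ ρ' ∈ R, ρ ≠ ρ' → ∀ h, SInt (ζ ρ) (ζ ρ') h → h = 0) := by
  classical
  obtain ⟨g, d, J, z, hJ1, hJ0, hJs, hirr, hint, hsum, hg⟩ := hD (Fin r) r y
  let s : Setoid (Fin g) := N1_set hS d z hirr
  let c : Fin g → Fin g := fun k => (Quotient.mk s k).out
  have hc : ∀ k, s.r (c k) k := fun k => Quotient.exact (Quotient.out_eq (Quotient.mk s k))
  have hcc : ∀ k l, s.r k l → c k = c l := fun k l h => by
    have h1 : Quotient.mk s k = Quotient.mk s l := Quotient.sound h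
    change (Quotient.mk s k).out = (Quotient.mk s l).out
    rw [h1]
  have hV : ∀ ρ k, ∃ V : Matrix (Fin (d k)) (Fin (d ρ)) ℂ,
      (s.r ρ k → Vᴴ * V = 1 ∧ V * Vᴴ = 1 ∧ SInt (z ρ) (z k) V) ∧ (¬ s.r ρ k → V = 0) := by
    intro ρ k
    by_cases h : s.r ρ k
    · obtain ⟨h', h0, hi⟩ := h
      obtain ⟨V, h1, h2, h3⟩ := N1_unit hS (hirr ρ) (hirr k) h0 hi
      exact ⟨V, fun _ => ⟨h1, h2, h3⟩, fun h4 => absurd ⟨h', h0, hi⟩ h4⟩
    · exact ⟨0, fun h1 => absurd h1 h, fun _ => rfl⟩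
  choose V hV1 hV0 using hV
  refine ⟨g, Finset.univ.filter fun ρ => c ρ = ρ, d, z, fun ρ k => J k * V ρ k, c, hg,
    ?_, hirr, ?_, ?_, ?_, ?_, ?_, ?_⟩
  · intro k
    rw [Finset.mem_filter]
    exact ⟨Finset.mem_univ _, hcc _ _ (hc k)⟩
  · intro ρ k
    by_cases h : s.r ρ k
    · exact N1_cmp (hV1 ρ k h).2.2 (hint k)
    · change SInt (z ρ) y (J k * V ρ k)
      rw [hV0 ρ k h, Matrix.mul_zero]
      exact N1_zero
  · intro ρ hρ k hk
    rw [Finset.mem_filter] at hρ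
    have h : ¬ s.r ρ k := fun h => hk (by rw [← hcc _ _ h, hρ.2])
    change J k * V ρ k = 0
    rw [hV0 ρ k h, Matrix.mul_zero]
  · intro ρ hρ
    have h := (hV1 ρ ρ (s.refl' ρ)).1
    change (J ρ * V ρ ρ)ᴴ * (J ρ * V ρ ρ) = 1
    rw [conjTranspose_mul, Matrix.mul_assoc, ← Matrix.mul_assoc (J ρ)ᴴ, hJ1, Matrix.one_mul, h]
  · rw [Finset.sum_comm, ← hJs]
    refine Finset.sum_congr rfl fun k _ => ?_
    rw [Finset.sum_eq_single (c k)]
    · rw [conjTranspose_mul, Matrix.mul_assoc, ← Matrix.mul_assoc (V (c k) k),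
        (hV1 _ _ (hc k)).2.1, Matrix.one_mul]
    · intro ρ hρ hne
      rw [Finset.mem_filter] at hρ
      have h : ¬ s.r ρ k := fun h => hne (by rw [← hcc _ _ h, hρ.2])
      change J k * V ρ k * (J k * V ρ k)ᴴ = 0
      rw [hV0 ρ k h, Matrix.mul_zero, Matrix.zero_mul]
    · intro h
      refine absurd ?_ h
      rw [Finset.mem_filter]
      exact ⟨Finset.mem_univ _, hcc _ _ (hc k)⟩
  · rw [← hsum]
    exact Finset.sum_congr rfl fun k _ =>
      N1_dim (hV1 _ _ (hc k)).1 (hV1 _ _ (hc k)).2.1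
  · intro ρ hρ ρ' hρ' hne h hi
    by_contra h0
    rw [Finset.mem_filter] at hρ hρ'
    exact hne (by rw [← hρ.2, ← hρ'.2]; exact hcc _ _ ⟨h, h0, hi⟩)

/-! ### The flat representation -/

/-- The number of elements of a class is at least the dimension. -/
theorem N1_class {r g : ℕ} {N : Fin r → Fin r → Fin r → ℕ} {o : Fin r} {st : Fin r → Fin r}
    (hF : IsFusion N o st) (R : Finset (Fin g)) (δ : Fin g → ℕ)
    (ζ : ∀ ρ, Fin r → Matrix (Fin (δ ρ)) (Fin (δ ρ)) ℂ)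
    (I : ∀ ρ : Fin g, Fin g → Matrix (Fin r) (Fin (δ ρ)) ℂ) (c : Fin g → Fin g)
    (hirr : ∀ ρ, Irr (ζ ρ)) (hI : ∀ ρ k, SInt (ζ ρ) (Lm N) (I ρ k))
    (hI0 : ∀ ρ ∈ R, ∀ k, c k ≠ ρ → I ρ k = 0)
    (hcomp : ∑ ρ ∈ R, ∑ k, I ρ k * (I ρ k)ᴴ = 1)
    (hineq : ∀ ρ ∈ R, ∀ ρ' ∈ R, ρ ≠ ρ' → ∀ h, SInt (ζ ρ) (ζ ρ') h → h = 0)
    (ρ : Fin g) (hρ : ρ ∈ R)
    (hmul : ∀ i j, ζ ρ i * ζ ρ j = ∑ k, (N i j k : ℂ) • ζ ρ k)
    (hone : ζ ρ o = 1) (hstar : ∀ i, ζ ρ (st i) = (ζ ρ i)ᴴ) :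
    δ ρ ≤ (Finset.univ.filter fun k => c k = ρ).card := by
  classical
  -- the vectors spanning
  let u : {k // c k = ρ} → (Fin (δ ρ) → ℂ) := fun k x => star (I ρ k.1 o x)
  have hspan : Submodule.span ℂ (Set.range u) = ⊤ := by
    rw [eq_top_iff]
    intro v _
    -- T v
    let T : Matrix (Fin (δ ρ)) (Fin r) ℂ := fun x i => (ζ ρ i).mulVec v x
    have hT1 : ∀ j, T * Lm N j = ζ ρ j * T := by
      intro j
      ext x b
      have h1 : (ζ ρ j * ζ ρ b).mulVec v x = (∑ k, (N j b k : ℂ) • ζ ρ k).mulVec v x := by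
        rw [hmul]
      rw [Matrix.mul_apply, Matrix.mul_apply]
      have h2 : (ζ ρ j * ζ ρ b).mulVec v x = ∑ i, ζ ρ j x i * T i b := by
        rw [← Matrix.mulVec_mulVec]
        rfl
      have h3 : (∑ k, (N j b k : ℂ) • ζ ρ k).mulVec v x = ∑ i, T x i * Lm N j i b := by
        rw [Matrix.sum_mulVec, Finset.sum_apply]
        refine Finset.sum_congr rfl fun k _ => ?_
        rw [Matrix.smul_mulVec, Pi.smul_apply, smul_eq_mul, mul_comm]
        rfl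
      rw [← h2, ← h3, h1]
    have hT : SInt (Lm N) (ζ ρ) T := by
      intro j
      refine ⟨hT1 j, ?_⟩
      rw [← Lm_star hF, ← hstar]
      exact hT1 _
    have hTo : ∀ x, T x o = v x := by
      intro x
      change (ζ ρ o).mulVec v x = v x
      rw [hone, Matrix.one_mulVec]
    -- scalars
    have hsc : ∀ k, ∃ t : ℂ, T * I ρ k = t • 1 := fun k => (hirr ρ).2 _ (N1_cmp (hI ρ k) hT)
    choose t ht using hsc
    have hTdec : T = ∑ k, t k • (I ρ k)ᴴ := by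
      have h1 : T = T * ∑ ρ' ∈ R, ∑ k, I ρ' k * (I ρ' k)ᴴ := by rw [hcomp, Matrix.mul_one]
      rw [h1, Matrix.mul_sum, Finset.sum_eq_single ρ]
      · rw [Matrix.mul_sum]
        refine Finset.sum_congr rfl fun k _ => ?_
        rw [← Matrix.mul_assoc, ht, Matrix.smul_mul, Matrix.one_mul]
      · intro ρ' hρ' hne
        rw [Matrix.mul_sum]
        refine Finset.sum_eq_zero fun k _ => ?_
        rw [← Matrix.mul_assoc, hineq ρ' hρ' ρ hρ hne _ (N1_cmp (hI ρ' k) hT), Matrix.zero_mul]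
      · intro h
        exact absurd hρ h
    have hv : v = ∑ k, t k • fun x => star (I ρ k o x) := by
      ext x
      rw [← hTo x]
      conv_lhs => rw [hTdec]
      rw [Matrix.sum_apply, Finset.sum_apply]
      rfl
    rw [hv]
    refine Submodule.sum_mem _ fun k _ => Submodule.smul_mem _ _ ?_
    by_cases hk : c k = ρ
    · exact Submodule.subset_span ⟨⟨k, hk⟩, rfl⟩
    · have h1 : (fun x => star (I ρ k o x)) = (0 : Fin (δ ρ) → ℂ) := by
        ext x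
        rw [hI0 ρ hρ k hk]
        simp
      rw [h1]
      exact Submodule.zero_mem _
  have h1 := finrank_range_le_card (R := ℂ) u
  rw [Set.finrank, hspan, finrank_top, Module.finrank_fin_fun, Fintype.card_subtype] at h1
  exact h1

/-- The value of `L_i L_j L_{k*}` at the unit vector. -/
theorem N1_val {r : ℕ} {N : Fin r → Fin r → Fin r → ℕ} {o : Fin r} {st : Fin r → Fin r}
    (hF : IsFusion N o st) (i j k : Fin r) :
    (Lm N i * Lm N j * Lm N (st k)) o o = (N i j k : ℂ) := by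
  have h1 : ∀ m, (Lm N m * Lm N (st k)) o o = if m = k then 1 else 0 := by
    intro m
    rw [Matrix.mul_apply, Finset.sum_eq_single (st k)]
    · rw [Lm_unit hF, if_pos rfl, mul_one]
      change ((N m (st k) o : ℕ) : ℂ) = _
      rw [hF.dual]
      by_cases h : m = k
      · rw [if_pos h, h, if_pos rfl, Nat.cast_one]
      · rw [if_neg h, if_neg, Nat.cast_zero]
        intro h'
        exact h (by rw [← hF.invol m, ← h', hF.invol])
    · intro b _ hb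
      rw [Lm_unit hF, if_neg (Ne.symm hb), mul_zero]
    · intro h
      exact absurd (Finset.mem_univ _) h
  rw [Lm_mul hF, Matrix.sum_mul, Matrix.sum_apply, Finset.sum_eq_single k]
  · rw [Matrix.smul_mul, Matrix.smul_apply, h1, if_pos rfl, smul_eq_mul, mul_one]
  · intro b _ hb
    rw [Matrix.smul_mul, Matrix.smul_apply, h1, if_neg hb, smul_zero]
  · intro h
    exact absurd (Finset.mem_univ _) h

theorem N1 (hS : Sch_stmt) (hD : Dec_stmt) : N1_stmt := by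
  classical
  intro r N o st hF
  obtain ⟨g, R, δ, ζ, I, c, hg, hcR, hirr, hI, hI0, hI1, hcomp, hdim, hineq⟩ :=
    N1_iso hS hD r (Lm N)
  have hI' : ∀ ρ k i, Lm N i * I ρ k = I ρ k * ζ ρ i := fun ρ k i => (hI ρ k i).1.symm
  have hζ : ∀ ρ ∈ R, ∀ i, ζ ρ i = (I ρ ρ)ᴴ * (Lm N i * I ρ ρ) := by
    intro ρ hρ i
    rw [hI', ← Matrix.mul_assoc, hI1 ρ hρ, Matrix.one_mul]
  have hmul : ∀ ρ ∈ R, ∀ i j, ζ ρ i * ζ ρ j = ∑ k, (N i j k : ℂ) • ζ ρ k := by
    intro ρ hρ i j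
    have h1 : I ρ ρ * (ζ ρ i * ζ ρ j) = Lm N i * Lm N j * I ρ ρ := by
      rw [← Matrix.mul_assoc, ← hI', Matrix.mul_assoc, ← hI', Matrix.mul_assoc]
    have h2 : ζ ρ i * ζ ρ j = (I ρ ρ)ᴴ * (Lm N i * Lm N j * I ρ ρ) := by
      rw [← h1, ← Matrix.mul_assoc, hI1 ρ hρ, Matrix.one_mul]
    rw [h2, Lm_mul hF, Matrix.sum_mul, Matrix.mul_sum]
    refine Finset.sum_congr rfl fun k _ => ?_
    rw [Matrix.smul_mul, Matrix.mul_smul, hζ ρ hρ k]
  have hone : ∀ ρ ∈ R, ζ ρ o = 1 := by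
    intro ρ hρ
    rw [hζ ρ hρ, Lm_one hF, Matrix.one_mul, hI1 ρ hρ]
  have hstar : ∀ ρ ∈ R, ∀ i, ζ ρ (st i) = (ζ ρ i)ᴴ := by
    intro ρ hρ i
    rw [hζ ρ hρ, hζ ρ hρ i, Lm_star hF, conjTranspose_mul, conjTranspose_mul,
      conjTranspose_conjTranspose, Matrix.mul_assoc]
  have hcls : ∀ ρ ∈ R, δ ρ ≤ (Finset.univ.filter fun k => c k = ρ).card := fun ρ hρ =>
    N1_class hF R δ ζ I c hirr hI hI0 hcomp hineq ρ hρ (hmul ρ hρ) (hone ρ hρ) (hstar ρ hρ)
  -- the sum of the squares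
  have hsq : ∑ ρ ∈ R, δ ρ * δ ρ ≤ r := by
    calc ∑ ρ ∈ R, δ ρ * δ ρ
        ≤ ∑ ρ ∈ R, (Finset.univ.filter fun k => c k = ρ).card * δ ρ :=
          Finset.sum_le_sum fun ρ hρ => Nat.mul_le_mul_right _ (hcls ρ hρ)
      _ = ∑ ρ ∈ R, ∑ k ∈ Finset.univ.filter fun k => c k = ρ, δ (c k) := by
          refine Finset.sum_congr rfl fun ρ _ => ?_
          rw [← smul_eq_mul, ← Finset.sum_const]
          refine Finset.sum_congr rfl fun k hk => ?_
          rw [(Finset.mem_filter.1 hk).2]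
      _ = ∑ k, δ (c k) := Finset.sum_fiberwise_of_maps_to (fun k _ => hcR k) _
      _ = r := hdim
  -- positions
  let e : Fin (Fintype.card (Σ ρ : R, Fin (δ ρ))) ≃ Σ ρ : R, Fin (δ ρ) :=
    (Fintype.equivFin _).symm
  have hsq' : ∑ ρ : R, δ ρ * δ ρ ≤ r := by
    rw [Finset.sum_coe_sort R fun ρ => δ ρ * δ ρ]
    exact hsq
  have hlab : ∀ p q, Fin.castLE hg ((e p).1 : Fin g) = Fin.castLE hg ((e q).1 : Fin g) ↔
      (e p).1 = (e q).1 := by
    intro p q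
    rw [(Fin.castLE_injective hg).eq_iff]
    exact Subtype.ext_iff.symm
  refine ⟨Fintype.card (Σ ρ : R, Fin (δ ρ)), fun p => Fin.castLE hg (e p).1,
    fun i => (blockDiagonal' fun ρ : R => ζ ρ i).submatrix e e,
    (blockDiagonal' fun ρ : R => ∑ k, (I ρ k)ᴴ *
      (Matrix.single o o 1 : Matrix (Fin r) (Fin r) ℂ) * I ρ k).submatrix e e,
    ?_, ?_, ?_, ?_, ?_, ?_, ?_, ?_⟩
  · -- hn
    rw [Fintype.card_sigma]
    refine le_trans (Finset.sum_le_sum fun ρ _ => ?_) hsq'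
    rw [Fintype.card_fin]
    exact Nat.le_mul_self _
  · -- mul
    intro i j
    rw [Matrix.submatrix_mul_equiv, ← blockDiagonal'_mul]
    ext p q
    rw [Matrix.sum_apply, Matrix.submatrix_apply]
    simp only [Matrix.smul_apply, Matrix.submatrix_apply]
    obtain ⟨ρ, x⟩ := e p
    obtain ⟨ρ', x'⟩ := e q
    by_cases h : ρ = ρ'
    · subst h
      simp only [blockDiagonal'_apply_eq]
      rw [hmul ρ ρ.2, Matrix.sum_apply]
      rfl
    · simp only [blockDiagonal'_apply_ne _ _ _ h, smul_zero, Finset.sum_const_zero]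
  · -- one
    have h1 : (fun ρ : R => ζ ρ o) = fun ρ : R => (1 : Matrix (Fin (δ ρ)) (Fin (δ ρ)) ℂ) := by
      funext ρ
      exact hone ρ ρ.2
    change (blockDiagonal' fun ρ : R => ζ ρ o).submatrix e e = 1
    rw [h1]
    have h2 := blockDiagonal'_one (o := R) (m' := fun ρ : R => Fin (δ ρ)) (α := ℂ)
    have h3 : (blockDiagonal' fun ρ : R => (1 : Matrix (Fin (δ ρ)) (Fin (δ ρ)) ℂ)) = 1 := h2
    rw [h3, Matrix.submatrix_one_equiv]
  · -- star
    intro i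
    change (blockDiagonal' fun ρ : R => ζ ρ (st i)).submatrix e e =
      ((blockDiagonal' fun ρ : R => ζ ρ i).submatrix e e)ᴴ
    rw [conjTranspose_submatrix, blockDiagonal'_conjTranspose]
    have h1 : (fun ρ : R => ζ ρ (st i)) = fun ρ : R => (ζ ρ i)ᴴ := by
      funext ρ
      exact hstar ρ ρ.2 i
    rw [h1]
  · -- blkX
    intro i p q hpq
    have h : (e p).1 ≠ (e q).1 := fun h => hpq ((hlab p q).2 h)
    rw [Matrix.submatrix_apply, blockDiagonal'_apply, dif_neg h]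
  · -- blkD
    intro p q hpq
    have h : (e p).1 ≠ (e q).1 := fun h => hpq ((hlab p q).2 h)
    rw [Matrix.submatrix_apply, blockDiagonal'_apply, dif_neg h]
  · -- sq
    refine le_trans (le_of_eq ?_) hsq'
    rw [Finset.card_filter, ← Finset.univ_product_univ, Finset.sum_product]
    simp only [hlab]
    rw [e.sum_comp fun s => ∑ q, if s.1 = (e q).1 then 1 else 0]
    have h1 : ∀ s : (Σ ρ : R, Fin (δ ρ)),
        (∑ q, if s.1 = (e q).1 then 1 else 0) = δ s.1 := by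
      intro s
      rw [e.sum_comp fun t : (Σ ρ : R, Fin (δ ρ)) => if s.1 = t.1 then 1 else 0,
        Fintype.sum_sigma]
      rw [Finset.sum_eq_single s.1]
      · simp
      · intro b _ hb
        simp [Ne.symm hb]
      · intro h
        exact absurd (Finset.mem_univ _) h
    simp only [h1]
    rw [Fintype.sum_sigma]
    refine Finset.sum_congr rfl fun ρ _ => ?_
    change ∑ _y : Fin (δ ρ), δ ρ = δ ρ * δ ρ
    rw [Finset.sum_const, Finset.card_univ, Fintype.card_fin, smul_eq_mul]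
  · -- tr
    intro i j k
    have htr : ∀ M : Matrix (Σ ρ : R, Fin (δ ρ)) (Σ ρ : R, Fin (δ ρ)) ℂ,
        (M.submatrix e e).trace = M.trace := by
      intro M
      exact e.sum_comp fun s => M s s
    rw [Matrix.submatrix_mul_equiv, Matrix.submatrix_mul_equiv, Matrix.submatrix_mul_equiv, htr,
      ← blockDiagonal'_mul, ← blockDiagonal'_mul, ← blockDiagonal'_mul, trace_blockDiagonal']
    have h1 : ∀ ρ : R, (ζ ρ i * ζ ρ j * ζ ρ (st k) *
        ∑ m, (I ρ m)ᴴ * (Matrix.single o o 1 : Matrix (Fin r) (Fin r) ℂ) * I ρ m).trace =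
        ∑ m, (Lm N i * Lm N j * Lm N (st k) * (I ρ m * (I ρ m)ᴴ) *
          (Matrix.single o o 1 : Matrix (Fin r) (Fin r) ℂ)).trace := by
      intro ρ
      rw [Matrix.mul_sum, Matrix.trace_sum]
      refine Finset.sum_congr rfl fun m _ => ?_
      have h2 : Lm N i * Lm N j * Lm N (st k) * I ρ m =
          I ρ m * (ζ ρ i * ζ ρ j * ζ ρ (st k)) := by
        rw [Matrix.mul_assoc, hI', ← Matrix.mul_assoc, Matrix.mul_assoc (Lm N i), hI',
          ← Matrix.mul_assoc (Lm N i), hI', Matrix.mul_assoc, Matrix.mul_assoc, Matrix.mul_assoc]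
      rw [← Matrix.mul_assoc (ζ ρ i * ζ ρ j * ζ ρ (st k)), Matrix.trace_mul_comm,
        ← Matrix.mul_assoc (Lm N i * Lm N j * Lm N (st k)), h2]
      simp only [Matrix.mul_assoc]
    rw [Finset.sum_congr rfl fun ρ _ => h1 ρ]
    have h3 : (∑ ρ : R, ∑ m, (Lm N i * Lm N j * Lm N (st k) * (I ρ m * (I ρ m)ᴴ) *
          (Matrix.single o o 1 : Matrix (Fin r) (Fin r) ℂ)).trace) =
        (Lm N i * Lm N j * Lm N (st k) * (∑ ρ ∈ R, ∑ m, I ρ m * (I ρ m)ᴴ) *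
          (Matrix.single o o 1 : Matrix (Fin r) (Fin r) ℂ)).trace := by
      rw [Matrix.mul_sum, Matrix.sum_mul, Matrix.trace_sum,
        ← Finset.sum_coe_sort R fun ρ => (Lm N i * Lm N j * Lm N (st k) *
          (∑ m, I ρ m * (I ρ m)ᴴ) * (Matrix.single o o 1 : Matrix (Fin r) (Fin r) ℂ)).trace]
      refine Finset.sum_congr rfl fun ρ _ => ?_
      rw [Matrix.mul_sum, Matrix.sum_mul, Matrix.trace_sum]
    rw [h3, hcomp, Matrix.mul_one, Matrix.trace_mul_single]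
    rw [← N1_val hF i j k]
    simp

end Pool.Agent.helper93.FR
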